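import Mathlib

set_option autoImplicit false

/-! # Box dimension of a self-similar set from its Hausdorff dimension -/

open MeasureTheory Filter Topology Set
open scoped ENNReal NNReal

namespace Pool.Agent.TH272.EO

/-- `𝒰` is a finite cover of `Y` by sets of diameter at most `ε`. -/
def IsCover (Y : Set ℝ) (ε : ℝ) (𝒰 : Finset (Set ℝ)) : Prop :=
  (∀ U ∈ 𝒰, Metric.ediam U ≤ ENNReal.ofReal ε) ∧ Y ⊆ ⋃ U ∈ 𝒰, U

/-- `N_ε(Y)`: the least number of sets of diameter at most `ε` needed to cover `Y`. -/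
noncomputable def coverNumber (Y : Set ℝ) (ε : ℝ) : ℕ :=
  sInf {m : ℕ | ∃ 𝒰 : Finset (Set ℝ), 𝒰.card = m ∧ IsCover Y ε 𝒰}

lemma coverNumber_le {Y : Set ℝ} {ε : ℝ} {𝒰 : Finset (Set ℝ)} (h : IsCover Y ε 𝒰) :
    coverNumber Y ε ≤ 𝒰.card := Nat.sInf_le ⟨𝒰, rfl, h⟩

lemma exists_interval_cover {Y : Set ℝ} {R : ℝ} (hR : 0 < R) (hY : Y ⊆ Icc (-R) R) {ε : ℝ}
    (hε : 0 < ε) : ∃ 𝒰 : Finset (Set ℝ), (𝒰.card : ℝ) ≤ 2 * R / ε + 1 ∧ IsCover Y ε 𝒰 := by
  classical
  refine ⟨(Finset.range (⌊2 * R / ε⌋₊ + 1)).image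
    (fun i : ℕ => Icc (-R + i * ε) (-R + (i + 1) * ε)), ?_, ?_, ?_⟩
  · have h1 := (Finset.card_image_le (s := Finset.range (⌊2 * R / ε⌋₊ + 1))
      (f := fun i : ℕ => Icc (-R + i * ε) (-R + (i + 1) * ε)))
    rw [Finset.card_range] at h1
    have h2 : ((⌊2 * R / ε⌋₊ : ℕ) : ℝ) ≤ 2 * R / ε := Nat.floor_le (by positivity)
    have h3 : (((Finset.range (⌊2 * R / ε⌋₊ + 1)).image
      (fun i : ℕ => Icc (-R + i * ε) (-R + (i + 1) * ε))).card : ℝ) ≤ ((⌊2 * R / ε⌋₊ + 1 : ℕ) : ℝ) := by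
      exact_mod_cast h1
    push_cast at h3
    linarith
  · intro U hU
    rw [Finset.mem_image] at hU
    obtain ⟨i, -, rfl⟩ := hU
    rw [Real.ediam_Icc]
    apply ENNReal.ofReal_le_ofReal
    ring_nf
    exact le_refl _
  · intro y hy
    have hy' := hY hy
    have h0 : 0 ≤ (y + R) / ε := div_nonneg (by linarith [hy'.1]) hε.le
    simp only [Finset.mem_image, Finset.mem_range, mem_iUnion, exists_prop]
    refine ⟨Icc (-R + (⌊(y + R) / ε⌋₊ : ℕ) * ε) (-R + ((⌊(y + R) / ε⌋₊ : ℕ) + 1) * ε),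
      ⟨⌊(y + R) / ε⌋₊, ?_, rfl⟩, ?_, ?_⟩
    · have : ⌊(y + R) / ε⌋₊ ≤ ⌊2 * R / ε⌋₊ := by
        apply Nat.floor_le_floor
        apply div_le_div_of_nonneg_right _ hε.le
        linarith [hy'.2]
      omega
    · have := Nat.floor_le h0
      rw [le_div_iff₀ hε] at this
      linarith
    · have := Nat.lt_floor_add_one ((y + R) / ε)
      rw [div_lt_iff₀ hε] at this
      linarith

lemma exists_optimal {Y : Set ℝ} {R : ℝ} (hR : 0 < R) (hY : Y ⊆ Icc (-R) R) {ε : ℝ}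
    (hε : 0 < ε) : ∃ 𝒰 : Finset (Set ℝ), 𝒰.card = coverNumber Y ε ∧ IsCover Y ε 𝒰 := by
  obtain ⟨𝒰, -, h⟩ := exists_interval_cover hR hY hε
  exact Nat.sInf_mem (s := {m : ℕ | ∃ 𝒰 : Finset (Set ℝ), 𝒰.card = m ∧ IsCover Y ε 𝒰})
    ⟨_, 𝒰, rfl, h⟩

lemma coverNumber_pos {Y : Set ℝ} (hne : Y.Nonempty) {R : ℝ} (hR : 0 < R)
    (hY : Y ⊆ Icc (-R) R) {ε : ℝ} (hε : 0 < ε) : 1 ≤ coverNumber Y ε := by
  obtain ⟨𝒰, h1, h2⟩ := exists_optimal hR hY hε
  rw [← h1, Nat.one_le_iff_ne_zero]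
  intro h0
  rw [Finset.card_eq_zero] at h0
  obtain ⟨y, hy⟩ := hne
  have := h2.2 hy
  simp [h0] at this

lemma coverNumber_anti {Y : Set ℝ} {R : ℝ} (hR : 0 < R) (hY : Y ⊆ Icc (-R) R) {ε δ : ℝ}
    (hε : 0 < ε) (h : ε ≤ δ) : coverNumber Y δ ≤ coverNumber Y ε := by
  obtain ⟨𝒰, h1, h2⟩ := exists_optimal hR hY hε
  rw [← h1]
  exact coverNumber_le ⟨fun U hU => (h2.1 U hU).trans (ENNReal.ofReal_le_ofReal h), h2.2⟩

/-- The linear upper bound. -/
lemma upper_one {Y : Set ℝ} {R : ℝ} (hR : 0 < R) (hY : Y ⊆ Icc (-R) R) {ε : ℝ}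
    (hε : 0 < ε) : (coverNumber Y ε : ℝ) ≤ 2 * R / ε + 1 := by
  obtain ⟨𝒰, h1, h2⟩ := exists_interval_cover hR hY hε
  exact le_trans (by exact_mod_cast coverNumber_le h2) h1

section selfsimilar

variable {k : ℕ} {r : ℝ} {a : Fin k → ℝ} {X : Set ℝ}

lemma ediam_image_le (hr0 : 0 < r) (U : Set ℝ) (b : ℝ) {ε : ℝ}
    (h : Metric.ediam U ≤ ENNReal.ofReal ε) :
    Metric.ediam ((fun x : ℝ => r * x + b) '' U) ≤ ENNReal.ofReal (r * ε) := by
  apply Metric.ediam_le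
  rintro _ ⟨x, hx, rfl⟩ _ ⟨y, hy, rfl⟩
  have h1 : edist x y ≤ ENNReal.ofReal ε := (Metric.edist_le_ediam_of_mem hx hy).trans h
  have h2 : edist (r * x + b) (r * y + b) = ENNReal.ofReal r * edist x y := by
    rw [edist_dist, edist_dist, ← ENNReal.ofReal_mul hr0.le]
    congr 1
    rw [Real.dist_eq, Real.dist_eq]
    rw [show r * x + b - (r * y + b) = r * (x - y) by ring, abs_mul, abs_of_pos hr0]
  simp only
  rw [h2, ENNReal.ofReal_mul hr0.le]
  gcongr

lemma coverNumber_scale (hr0 : 0 < r) (hX : X = ⋃ i : Fin k, (fun x : ℝ => r * x + a i) '' X)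
    {R : ℝ} (hR : 0 < R) (hY : X ⊆ Icc (-R) R) {ε : ℝ} (hε : 0 < ε) :
    coverNumber X (r * ε) ≤ k * coverNumber X ε := by
  classical
  obtain ⟨𝒰, h1, h2⟩ := exists_optimal hR hY hε
  have hc : IsCover X (r * ε) ((Finset.univ : Finset (Fin k)).biUnion
      (fun i => 𝒰.image (fun U => (fun x : ℝ => r * x + a i) '' U))) := by
    constructor
    · intro V hV
      simp only [Finset.mem_biUnion, Finset.mem_image] at hV
      obtain ⟨i, -, U, hU, rfl⟩ := hV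
      exact ediam_image_le hr0 U (a i) (h2.1 U hU)
    · intro x hx
      rw [hX] at hx
      obtain ⟨i, hi⟩ := mem_iUnion.1 hx
      obtain ⟨y, hy, hxy⟩ := hi
      have hy2 := h2.2 hy
      simp only [mem_iUnion, exists_prop] at hy2
      obtain ⟨U, hU, hyU⟩ := hy2
      simp only [Finset.mem_biUnion, Finset.mem_image, mem_iUnion, exists_prop]
      exact ⟨(fun x : ℝ => r * x + a i) '' U, ⟨i, Finset.mem_univ _, U, hU, rfl⟩, y, hyU, hxy⟩
  refine (coverNumber_le hc).trans ?_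
  refine (Finset.card_biUnion_le_card_mul _ _ _ fun i _ => Finset.card_image_le).trans ?_
  rw [Finset.card_univ, Fintype.card_fin, h1]

lemma coverNumber_pow (hr0 : 0 < r) (hX : X = ⋃ i : Fin k, (fun x : ℝ => r * x + a i) '' X)
    {R : ℝ} (hR : 0 < R) (hY : X ⊆ Icc (-R) R) (n : ℕ) :
    coverNumber X (r ^ n * (2 * R)) ≤ k ^ n := by
  induction n with
  | zero =>
    rw [pow_zero, one_mul, pow_zero]
    have : IsCover X (2 * R) {Icc (-R) R} := by
      constructor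
      · intro U hU
        rw [Finset.mem_singleton] at hU
        subst hU
        rw [Real.ediam_Icc]
        apply ENNReal.ofReal_le_ofReal
        linarith
      · simpa using hY
    simpa using coverNumber_le this
  | succ n ih =>
    rw [pow_succ', mul_assoc]
    refine (coverNumber_scale hr0 hX hR hY (by positivity)).trans ?_
    rw [pow_succ']
    exact Nat.mul_le_mul_left _ ih

/-- The similarity upper bound: `N_ε ≤ k (2R/ε)^s`, `s = log k / log (1/r)`. -/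
lemma upper_sim (hk : 0 < k) (hr0 : 0 < r) (hr1 : r < 1)
    (hX : X = ⋃ i : Fin k, (fun x : ℝ => r * x + a i) '' X)
    {R : ℝ} (hR : 0 < R) (hY : X ⊆ Icc (-R) R) {ε : ℝ} (hε : 0 < ε) (hεR : ε ≤ 2 * R) :
    (coverNumber X ε : ℝ) ≤ k * (2 * R / ε) ^ (Real.log k / Real.log (1 / r)) := by
  have hk1 : (1 : ℝ) ≤ k := by exact_mod_cast hk
  have hL : 0 < Real.log (1 / r) := Real.log_pos (by rw [lt_div_iff₀ hr0]; linarith)
  have hq1 : 1 ≤ 2 * R / ε := by rw [le_div_iff₀ hε]; linarith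
  have hq0 : 0 < 2 * R / ε := by linarith
  set t : ℝ := Real.log (2 * R / ε) / Real.log (1 / r) with ht
  have ht0 : 0 ≤ t := div_nonneg (Real.log_nonneg hq1) hL.le
  set n : ℕ := ⌈t⌉₊ with hn
  have h1 : r ^ n * (2 * R) ≤ ε := by
    have h2 : Real.log (2 * R / ε) ≤ n * Real.log (1 / r) := by
      have : t ≤ n := Nat.le_ceil t
      rw [ht, div_le_iff₀ hL] at this
      exact this
    have h3 : 2 * R / ε ≤ (1 / r) ^ n := by
      rw [← Real.log_le_log_iff hq0 (by positivity), Real.log_pow]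
      exact h2
    rw [div_le_iff₀ hε, one_div, inv_pow] at h3
    rw [inv_mul_eq_div, le_div_iff₀ (by positivity)] at h3
    linarith
  have h4 : (coverNumber X ε : ℝ) ≤ (k : ℝ) ^ n := by
    have := (coverNumber_anti hR hY (by positivity) h1).trans (coverNumber_pow hr0 hX hR hY n)
    exact_mod_cast this
  refine h4.trans ?_
  have h5 : (n : ℝ) ≤ 1 + t := by
    have := Nat.ceil_lt_add_one ht0
    linarith
  have h6 : (2 * R / ε) ^ (Real.log k / Real.log (1 / r)) = (k : ℝ) ^ t := by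
    rw [Real.rpow_def_of_pos hq0, Real.rpow_def_of_pos (by linarith), ht]
    congr 1
    field_simp
  rw [h6, ← Real.rpow_natCast]
  calc (k : ℝ) ^ ((n : ℕ) : ℝ) ≤ (k : ℝ) ^ (1 + t) := Real.rpow_le_rpow_of_exponent_le hk1 h5
    _ = k * (k : ℝ) ^ t := by rw [Real.rpow_add (by linarith), Real.rpow_one]

end selfsimilar

/-- From a power bound to the upper estimate of the logarithmic quotient. -/
lemma limsup_aux {N : ℝ → ℕ} {t C : ℝ} (hC : 0 < C)
    (hN : ∀ᶠ ε in 𝓝[>] (0 : ℝ), (1 : ℝ) ≤ N ε)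
    (h : ∀ᶠ ε in 𝓝[>] (0 : ℝ), (N ε : ℝ) ≤ C * (1 / ε) ^ t) (e : ℝ) (he : 0 < e) :
    ∀ᶠ ε in 𝓝[>] (0 : ℝ), Real.log (N ε) / Real.log (1 / ε) < t + e := by
  have hlim : Tendsto (fun ε : ℝ => Real.log (1 / ε)) (𝓝[>] (0 : ℝ)) atTop := by
    have : Tendsto (fun ε : ℝ => 1 / ε) (𝓝[>] (0 : ℝ)) atTop := by
      simpa using tendsto_inv_nhdsGT_zero (𝕜 := ℝ)
    exact Real.tendsto_log_atTop.comp this
  have h1 : ∀ᶠ ε in 𝓝[>] (0 : ℝ), Real.log C / e < Real.log (1 / ε) :=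
    hlim.eventually (eventually_gt_atTop _)
  have h2 : ∀ᶠ ε in 𝓝[>] (0 : ℝ), 0 < Real.log (1 / ε) := hlim.eventually (eventually_gt_atTop _)
  filter_upwards [hN, h, h1, h2, self_mem_nhdsWithin] with ε hN1 h3 h4 h5 h6
  have h6' : (0 : ℝ) < ε := h6
  rw [div_lt_iff₀ h5]
  have h7 : Real.log (N ε) ≤ Real.log (C * (1 / ε) ^ t) :=
    Real.log_le_log (by linarith) h3
  rw [Real.log_mul hC.ne' (by positivity), Real.log_rpow (by positivity)] at h7
  rw [div_lt_iff₀ he] at h4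
  nlinarith

/-- The lower estimate from the Hausdorff dimension. -/
lemma liminf_aux {X : Set ℝ} {R : ℝ} (hR : 0 < R) (hY : X ⊆ Icc (-R) R) {d : ℝ} (hd : 0 ≤ d)
    (h : ENNReal.ofReal d < dimH X) :
    ∀ᶠ ε in 𝓝[>] (0 : ℝ), d ≤ Real.log (coverNumber X ε) / Real.log (1 / ε) := by
  classical
  have hpick : ∀ ε : ℝ, ∃ 𝒰 : Finset (Set ℝ), 0 < ε →
      (𝒰.card = coverNumber X ε ∧ IsCover X ε 𝒰) := by
    intro ε
    by_cases hε : 0 < ε
    · obtain ⟨𝒰, h1⟩ := exists_optimal hR hY hε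
      exact ⟨𝒰, fun _ => h1⟩
    · exact ⟨∅, fun h => absurd h hε⟩
  choose 𝒰 h𝒰 using hpick
  have hH : μH[d] X = ∞ := by
    have := hausdorffMeasure_of_lt_dimH (s := X) (d := d.toNNReal) h
    rwa [Real.coe_toNNReal d hd] at this
  have hl := Measure.hausdorffMeasure_le_liminf_sum (ι := fun ε : ℝ => 𝒰 ε) d X
    (l := 𝓝[>] (0 : ℝ)) (fun ε => ENNReal.ofReal ε)
    (by
      have : Tendsto (fun ε : ℝ => ENNReal.ofReal ε) (𝓝 0) (𝓝 (ENNReal.ofReal 0)) :=
        ENNReal.tendsto_ofReal tendsto_id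
      rw [ENNReal.ofReal_zero] at this
      exact this.mono_left nhdsWithin_le_nhds)
    (fun ε U => (U : Set ℝ))
    (by
      filter_upwards [self_mem_nhdsWithin] with ε hε
      intro U
      exact (h𝒰 ε hε).2.1 _ U.2)
    (by
      filter_upwards [self_mem_nhdsWithin] with ε hε
      intro x hx
      have := (h𝒰 ε hε).2.2 hx
      simp only [mem_iUnion, exists_prop] at this
      obtain ⟨U, hU, hxU⟩ := this
      exact mem_iUnion.2 ⟨⟨U, hU⟩, hxU⟩)
  rw [hH, top_le_iff] at hl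
  have hev : ∀ᶠ ε in 𝓝[>] (0 : ℝ), (1 : ℝ≥0∞) <
      ∑ U : 𝒰 ε, Metric.ediam (U : Set ℝ) ^ d := by
    refine eventually_lt_of_lt_liminf ?_ (by isBoundedDefault)
    rw [hl]
    exact ENNReal.one_lt_top
  have hlt1 : ∀ᶠ ε in 𝓝[>] (0 : ℝ), ε < 1 :=
    (eventually_lt_nhds (show (0 : ℝ) < 1 by norm_num)).filter_mono nhdsWithin_le_nhds
  filter_upwards [hev, self_mem_nhdsWithin, hlt1] with ε h1 h2 h3
  have h2' : (0 : ℝ) < ε := h2
  have hlog : 0 < Real.log (1 / ε) := Real.log_pos (by rw [lt_div_iff₀ h2']; linarith)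
  have h4 : ∑ U : 𝒰 ε, Metric.ediam (U : Set ℝ) ^ d ≤
      (coverNumber X ε : ℝ≥0∞) * ENNReal.ofReal ε ^ d := by
    calc ∑ U : 𝒰 ε, Metric.ediam (U : Set ℝ) ^ d
        ≤ ∑ U : 𝒰 ε, ENNReal.ofReal ε ^ d := by
          apply Finset.sum_le_sum
          intro U _
          exact ENNReal.rpow_le_rpow ((h𝒰 ε h2').2.1 _ U.2) hd
      _ = _ := by
          rw [Finset.sum_const, Finset.card_univ, Fintype.card_coe, (h𝒰 ε h2').1, nsmul_eq_mul]
  have h5 : (1 : ℝ≥0∞) < (coverNumber X ε : ℝ≥0∞) * ENNReal.ofReal ε ^ d := lt_of_lt_of_le h1 h4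
  have h6 : (1 : ℝ) < (coverNumber X ε : ℝ) * ε ^ d := by
    rw [ENNReal.ofReal_rpow_of_pos h2'] at h5
    rw [← ENNReal.ofReal_natCast, ← ENNReal.ofReal_mul (by positivity),
      ← ENNReal.ofReal_one, ENNReal.ofReal_lt_ofReal_iff_of_nonneg (by norm_num)] at h5
    exact h5
  rw [le_div_iff₀ hlog]
  have hpos : 0 < (coverNumber X ε : ℝ) := by
    rcases (Nat.cast_nonneg (α := ℝ) (coverNumber X ε)).lt_or_eq with h | h
    · exact h
    · rw [← h] at h6; norm_num at h6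
  have h7 := Real.log_pos h6
  rw [Real.log_mul hpos.ne' (by positivity), Real.log_rpow h2'] at h7
  rw [one_div, Real.log_inv]
  nlinarith

/-- Box dimension equals Hausdorff dimension for the homogeneous self-similar sets whose Hausdorff
dimension is the expected one. -/
theorem box_of_hausdorff {k : ℕ} (hk : 0 < k) {r : ℝ} (hr0 : 0 < r) (hr1 : r < 1)
    {a : Fin k → ℝ} {X : Set ℝ} (hXc : IsCompact X) (hXn : X.Nonempty)
    (hX : X = ⋃ i : Fin k, (fun x : ℝ => r * x + a i) '' X)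
    (hdim : dimH X = ENNReal.ofReal (min 1 (Real.log k / Real.log (1 / r)))) :
    Tendsto (fun ε : ℝ => Real.log (coverNumber X ε) / Real.log (1 / ε)) (𝓝[>] (0 : ℝ))
      (𝓝 (min 1 (Real.log k / Real.log (1 / r)))) := by
  obtain ⟨R, hR, hY⟩ : ∃ R : ℝ, 0 < R ∧ X ⊆ Icc (-R) R := by
    obtain ⟨R, hR⟩ := hXc.isBounded.subset_closedBall 0
    refine ⟨max R 1, by positivity, fun x hx => ?_⟩
    have := hR hx
    rw [Metric.mem_closedBall, Real.dist_eq, sub_zero, abs_le] at this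
    exact ⟨by linarith [le_max_left R 1], this.2.trans (le_max_left _ _)⟩
  set s : ℝ := Real.log k / Real.log (1 / r) with hs
  have hk1 : (1 : ℝ) ≤ k := by exact_mod_cast hk
  have hL : 0 < Real.log (1 / r) := Real.log_pos (by rw [lt_div_iff₀ hr0]; linarith)
  have hs0 : 0 ≤ s := div_nonneg (Real.log_nonneg hk1) hL.le
  have hN : ∀ᶠ ε in 𝓝[>] (0 : ℝ), (1 : ℝ) ≤ coverNumber X ε := by
    filter_upwards [self_mem_nhdsWithin] with ε hε
    exact_mod_cast coverNumber_pos hXn hR hY hε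
  have hlt1 : ∀ᶠ ε in 𝓝[>] (0 : ℝ), ε < 1 :=
    (eventually_lt_nhds (show (0 : ℝ) < 1 by norm_num)).filter_mono nhdsWithin_le_nhds
  have hltR : ∀ᶠ ε in 𝓝[>] (0 : ℝ), ε < 2 * R :=
    (eventually_lt_nhds (show (0 : ℝ) < 2 * R by positivity)).filter_mono nhdsWithin_le_nhds
  have hU1 : ∀ᶠ ε in 𝓝[>] (0 : ℝ), (coverNumber X ε : ℝ) ≤ (2 * R + 1) * (1 / ε) ^ (1 : ℝ) := by
    filter_upwards [self_mem_nhdsWithin, hlt1] with ε hε hε1
    have hε' : (0 : ℝ) < ε := hε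
    refine (upper_one hR hY hε').trans ?_
    rw [Real.rpow_one, mul_one_div, add_div]
    have : 1 ≤ 1 / ε := by rw [le_div_iff₀ hε']; linarith
    linarith
  have hU2 : ∀ᶠ ε in 𝓝[>] (0 : ℝ), (coverNumber X ε : ℝ) ≤ (k * (2 * R) ^ s) * (1 / ε) ^ s := by
    filter_upwards [self_mem_nhdsWithin, hltR] with ε hε hε1
    have hε' : (0 : ℝ) < ε := hε
    refine (upper_sim hk hr0 hr1 hX hR hY hε' hε1.le).trans ?_
    rw [mul_assoc, ← Real.mul_rpow (by positivity) (by positivity), mul_one_div]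
  rw [tendsto_order]
  constructor
  · intro c hc
    by_cases hc0 : 0 ≤ c
    · obtain ⟨d, hcd, hd⟩ := exists_between hc
      have h1 := liminf_aux hR hY (d := d) (by linarith) (by
        rw [hdim]
        exact (ENNReal.ofReal_lt_ofReal_iff_of_nonneg (by linarith)).2 hd)
      filter_upwards [h1] with ε h
      linarith
    · filter_upwards [hN, self_mem_nhdsWithin, hlt1] with ε h1 h2 h3
      have h2' : (0 : ℝ) < ε := h2
      have : 0 ≤ Real.log (coverNumber X ε) / Real.log (1 / ε) :=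
        div_nonneg (Real.log_nonneg h1) (Real.log_nonneg (by rw [le_div_iff₀ h2']; linarith))
      linarith
  · intro c hc
    rcases min_lt_iff.1 hc with h | h
    · have := limsup_aux (t := 1) (by positivity) hN hU1 (c - 1) (by linarith)
      filter_upwards [this] with ε h
      linarith
    · have := limsup_aux (t := s) (by positivity) hN hU2 (c - s) (by linarith)
      filter_upwards [this] with ε h
      linarith

end Pool.Agent.TH272.EO
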